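import Mathlib

/-!
# Complete bipartite patterns of differences in sets of positive integers with a power saving

If a set `E` of integers in a window of length `H` has more than `C * H ^ (1 - δ)` elements, then there
are `a 1, ..., a K` in one residue class modulo `P` and multiples `b 1, ..., b K` of `P` such that all the
differences `a i - b j` belong to `E`.
-/

set_option autoImplicit false

namespace Pool.Agent.N419.GP

open Finset

/-- the pairs `x < y` of a finite set -/
theorem card_lt_pairs (E : Finset ℕ) (h2 : 2 ≤ E.card) :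
    E.card ^ 2 ≤ 4 * ((E ×ˢ E).filter (fun p => p.1 < p.2)).card := by
  have h1 : ((E ×ˢ E).filter (fun p => p.1 < p.2)).card =
      ((E ×ˢ E).filter (fun p => p.2 < p.1)).card := by
    apply Finset.card_bij (fun p _ => (p.2, p.1))
    · intro p hp
      simp only [mem_filter, mem_product] at hp ⊢
      exact ⟨⟨hp.1.2, hp.1.1⟩, hp.2⟩
    · intro p _ q _ h
      simp only [Prod.mk.injEq] at h
      exact Prod.ext h.2 h.1
    · intro p hp
      simp only [mem_filter, mem_product] at hp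
      refine ⟨(p.2, p.1), ?_, rfl⟩
      simp only [mem_filter, mem_product]
      exact ⟨⟨hp.1.2, hp.1.1⟩, hp.2⟩
  have h3 : (E ×ˢ E).card = ((E ×ˢ E).filter (fun p => p.1 < p.2)).card +
      ((E ×ˢ E).filter (fun p => p.2 < p.1)).card + ((E ×ˢ E).filter (fun p => p.1 = p.2)).card := by
    rw [← Finset.card_filter_add_card_filter_not (s := E ×ˢ E) (fun p => p.1 < p.2), add_assoc]
    congr 1
    rw [← Finset.card_filter_add_card_filter_not (s := (E ×ˢ E).filter (fun p => ¬ p.1 < p.2))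
      (fun p => p.2 < p.1), Finset.filter_filter, Finset.filter_filter]
    congr 2
    · ext p
      simp only [mem_filter]
      constructor
      · rintro ⟨h, _, h'⟩; exact ⟨h, h'⟩
      · rintro ⟨h, h'⟩; exact ⟨h, by omega, h'⟩
    · ext p
      simp only [mem_filter]
      constructor
      · rintro ⟨h, h', h''⟩; exact ⟨h, by omega⟩
      · rintro ⟨h, h'⟩; exact ⟨h, by omega, by omega⟩
  have h4 : ((E ×ˢ E).filter (fun p => p.1 = p.2)).card = E.card := by
    symm
    apply Finset.card_bij (fun x _ => (x, x))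
    · intro x hx
      simp only [mem_filter, mem_product]
      exact ⟨⟨hx, hx⟩, trivial⟩
    · intro x _ y _ h
      exact (Prod.ext_iff.1 h).1
    · rintro ⟨x, y⟩ hp
      simp only [mem_filter, mem_product] at hp
      refine ⟨x, hp.1.1, ?_⟩
      rw [← hp.2]
  rw [Finset.card_product] at h3
  nlinarith

/-- one popular difference -/
theorem step (E : Finset ℕ) (u L : ℕ) (hE : E ⊆ Icc u (u + L)) (h2 : 2 ≤ E.card) :
    ∃ h, 1 ≤ h ∧ h ≤ L ∧ E.card ^ 2 ≤ 4 * L * (E.filter (fun e => e + h ∈ E)).card := by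
  by_contra hcon
  push Not at hcon
  have h1 := card_lt_pairs E h2
  have h3 : ((E ×ˢ E).filter (fun p => p.1 < p.2)).card =
      ∑ h ∈ Icc 1 L, (E.filter (fun e => e + h ∈ E)).card := by
    rw [← Finset.card_sigma]
    apply Finset.card_bij (fun p _ => (⟨p.2 - p.1, p.1⟩ : Σ _ : ℕ, ℕ))
    · rintro ⟨x, y⟩ hp
      simp only [mem_filter, mem_product] at hp
      simp only [mem_sigma, mem_Icc, mem_filter]
      have hx := mem_Icc.1 (hE hp.1.1)
      have hy := mem_Icc.1 (hE hp.1.2)
      refine ⟨⟨by omega, by omega⟩, hp.1.1, ?_⟩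
      rw [Nat.add_sub_cancel' hp.2.le]
      exact hp.1.2
    · rintro ⟨x, y⟩ hp ⟨x', y'⟩ hp' h
      simp only [mem_filter, mem_product] at hp hp'
      simp only [Sigma.mk.injEq, heq_eq_eq] at h
      have h5 := h.1
      have h6 := h.2
      refine Prod.ext h6 ?_
      simp only
      omega
    · rintro ⟨h, x⟩ hp
      simp only [mem_sigma, mem_Icc, mem_filter] at hp
      refine ⟨(x, x + h), ?_, ?_⟩
      · simp only [mem_filter, mem_product]
        exact ⟨⟨hp.2.1, hp.2.2⟩, by omega⟩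
      · simp only [Nat.add_sub_cancel_left]
  rw [h3, Finset.mul_sum] at h1
  have hL : 0 < L := by
    obtain ⟨x, hx, y, hy, hxy⟩ := Finset.one_lt_card.1 h2
    have hx' := mem_Icc.1 (hE hx)
    have hy' := mem_Icc.1 (hE hy)
    omega
  have h4 : L * ∑ h ∈ Icc 1 L, 4 * (E.filter (fun e => e + h ∈ E)).card <
      ∑ h ∈ Icc 1 L, E.card ^ 2 := by
    rw [Finset.mul_sum]
    apply Finset.sum_lt_sum_of_nonempty ⟨1, mem_Icc.2 ⟨le_rfl, hL⟩⟩
    intro h hh
    obtain ⟨h5, h6⟩ := mem_Icc.1 hh
    have := hcon h h5 h6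
    calc L * (4 * (E.filter (fun e => e + h ∈ E)).card) =
        4 * L * (E.filter (fun e => e + h ∈ E)).card := by ring
      _ < _ := this
  rw [Finset.sum_const, Nat.card_Icc, Nat.add_sub_cancel, smul_eq_mul] at h4
  have h5 := Nat.mul_le_mul_left L h1
  omega

/-- iterated popular differences -/
theorem cube (K L : ℕ) (hK : 1 ≤ K) (hL : 1 ≤ L) (j : ℕ) : ∀ (u : ℕ) (E : Finset ℕ),
    E ⊆ Icc u (u + L) → (2 ^ j * K : ℝ) * (L : ℝ) ^ (1 - 1 / (2 : ℝ) ^ j) ≤ E.card →
    ∃ B : ℕ → ℕ, (∀ i, i < j → B i < B (i + 1)) ∧ (∀ i, i ≤ j → B i ≤ j * L) ∧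
      K ≤ (E.filter (fun e => ∀ i, i ≤ j → e + B i ∈ E)).card := by
  have hLr : (1 : ℝ) ≤ L := by exact_mod_cast hL
  have hKr : (1 : ℝ) ≤ K := by exact_mod_cast hK
  induction j with
  | zero =>
    intro u E _ hc
    refine ⟨fun _ => 0, fun i hi => by omega, fun i _ => Nat.zero_le _, ?_⟩
    have h1 : E.filter (fun e => ∀ i, i ≤ 0 → e + 0 ∈ E) = E := by
      apply Finset.filter_true_of_mem
      intro x hx i _
      exact hx
    rw [h1]
    simp only [pow_zero, one_mul, div_one, sub_self, Real.rpow_zero, mul_one] at hc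
    exact_mod_cast hc
  | succ j ih =>
    intro u E hE hc
    have hp1 : (0 : ℝ) < 2 ^ j := by positivity
    have hpow : (1 : ℝ) ≤ (L : ℝ) ^ (1 - 1 / (2 : ℝ) ^ (j + 1)) := by
      apply Real.one_le_rpow hLr
      have : 1 / (2 : ℝ) ^ (j + 1) ≤ 1 := by
        rw [div_le_one (by positivity)]
        exact one_le_pow₀ (by norm_num)
      linarith
    have h2 : 2 ≤ E.card := by
      have h3 : (2 : ℝ) ≤ 2 ^ (j + 1) * K := by
        have : (1 : ℝ) ≤ 2 ^ j := one_le_pow₀ (by norm_num)
        rw [pow_succ]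
        nlinarith
      have h4 : (2 : ℝ) ≤ E.card := by nlinarith
      exact_mod_cast h4
    obtain ⟨h, hh1, hhL, hcard⟩ := step E u L hE h2
    set E1 := E.filter (fun e => e + h ∈ E) with hE1
    have hE1' : E1 ⊆ Icc u (u + L) := (Finset.filter_subset _ _).trans hE
    have hc1 : (2 ^ j * K : ℝ) * (L : ℝ) ^ (1 - 1 / (2 : ℝ) ^ j) ≤ E1.card := by
      have h3 : ((E.card : ℝ)) ^ 2 ≤ 4 * L * E1.card := by exact_mod_cast hcard
      have h4 : ((2 ^ (j + 1) * K : ℝ) * (L : ℝ) ^ (1 - 1 / (2 : ℝ) ^ (j + 1))) ^ 2 ≤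
          (E.card : ℝ) ^ 2 := pow_le_pow_left₀ (by positivity) hc 2
      have h5 : ((L : ℝ) ^ (1 - 1 / (2 : ℝ) ^ (j + 1))) ^ 2 =
          L * (L : ℝ) ^ (1 - 1 / (2 : ℝ) ^ j) := by
        rw [← Real.rpow_natCast, ← Real.rpow_mul (by linarith)]
        have e1 : (1 - 1 / (2 : ℝ) ^ (j + 1)) * ((2 : ℕ) : ℝ) = 1 + (1 - 1 / (2 : ℝ) ^ j) := by
          rw [pow_succ]
          field_simp
          push_cast
          ring
        rw [e1, Real.rpow_add (by linarith), Real.rpow_one]
      have h6 : (0 : ℝ) < L := by linarith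
      have h7 : (0 : ℝ) < (L : ℝ) ^ (1 - 1 / (2 : ℝ) ^ j) := Real.rpow_pos_of_pos h6 _
      rw [mul_pow, h5] at h4
      have h8 : (2 ^ (j + 1) * K : ℝ) ^ 2 = 4 * (2 ^ j * K) ^ 2 := by rw [pow_succ]; ring
      rw [h8] at h4
      have h9 : 4 * (2 ^ j * (K : ℝ)) ^ 2 * ((L : ℝ) * (L : ℝ) ^ (1 - 1 / (2 : ℝ) ^ j)) ≤
          4 * L * E1.card := h4.trans h3
      have h10 : (2 ^ j * (K : ℝ)) ^ 2 * (L : ℝ) ^ (1 - 1 / (2 : ℝ) ^ j) ≤ E1.card := by
        have : 4 * (L : ℝ) * ((2 ^ j * (K : ℝ)) ^ 2 * (L : ℝ) ^ (1 - 1 / (2 : ℝ) ^ j)) ≤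
            4 * L * E1.card := by linarith
        exact le_of_mul_le_mul_left this (by positivity)
      have h11 : (2 ^ j * K : ℝ) ≤ (2 ^ j * (K : ℝ)) ^ 2 := by
        have : (1 : ℝ) ≤ 2 ^ j * K := by
          have : (1 : ℝ) ≤ 2 ^ j := one_le_pow₀ (by norm_num)
          nlinarith
        nlinarith
      exact (mul_le_mul_of_nonneg_right h11 h7.le).trans h10
    obtain ⟨B, hB1, hB2, hB3⟩ := ih u E1 hE1' hc1
    refine ⟨fun i => if i ≤ j then B i else B j + h, ?_, ?_, ?_⟩
    · intro i hi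
      by_cases hij : i < j
      · simp only [show i ≤ j by omega, show i + 1 ≤ j by omega, if_true]
        exact hB1 i hij
      · have : i = j := by omega
        subst this
        simp only [le_refl, if_true, show ¬ (i + 1 ≤ i) by omega, if_false]
        omega
    · intro i hi
      have h1 : j * L + L = (j + 1) * L := by ring
      by_cases hij : i ≤ j
      · simp only [hij, if_true]
        have := hB2 i hij
        omega
      · simp only [hij, if_false]
        have := hB2 j le_rfl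
        omega
    · refine hB3.trans (Finset.card_le_card ?_)
      intro e he
      rw [mem_filter] at he ⊢
      refine ⟨(mem_filter.1 he.1).1, fun i hi => ?_⟩
      by_cases hij : i ≤ j
      · simp only [hij, if_true]
        exact (mem_filter.1 (he.2 i hij)).1
      · simp only [hij, if_false]
        have := (mem_filter.1 (he.2 j le_rfl)).2
        rw [← add_assoc]
        exact this

/-- `δ = 2 ^ (- (K - 1))` -/
theorem comb (K P : ℕ) (hK : 1 ≤ K) (hP : 1 ≤ P) : ∃ C : ℕ, ∀ (u H : ℕ) (E : Finset ℕ), 1 ≤ H →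
    E ⊆ Ioc u (u + H) → (C : ℝ) * (H : ℝ) ^ (1 - 1 / (2 : ℝ) ^ (K - 1)) ≤ E.card →
    ∃ (r : ℕ) (a b : Fin K → ℕ), Function.Injective a ∧ Function.Injective b ∧
      (∀ i, a i % P = r) ∧ (∀ j, P ∣ b j) ∧ (∀ i j, b j < a i ∧ a i - b j ∈ E) ∧
      (∀ i, a i ≤ u + H + 2 * P * K * H) := by
  refine ⟨2 * P * (2 ^ (K - 1) * K), ?_⟩
  intro u H E hH hE hc
  have hHr : (1 : ℝ) ≤ H := by exact_mod_cast hH
  have hP0 : 0 < P := by omega
  -- the residue class
  obtain ⟨r, hr, hrc⟩ : ∃ r ∈ range P, E.card ≤ P * (E.filter (fun e => e % P = r)).card := by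
    by_contra hcon
    push Not at hcon
    have h1 : E.card = ∑ r ∈ range P, (E.filter (fun e => e % P = r)).card :=
      Finset.card_eq_sum_card_fiberwise fun e _ => by
        simp only [coe_range, Set.mem_Iio]
        exact Nat.mod_lt _ hP0
    have h2 : ∑ r ∈ range P, P * (E.filter (fun e => e % P = r)).card < ∑ r ∈ range P, E.card :=
      Finset.sum_lt_sum_of_nonempty ⟨0, mem_range.2 hP0⟩ hcon
    rw [← Finset.mul_sum, ← h1, Finset.sum_const, card_range, smul_eq_mul] at h2
    exact lt_irrefl _ h2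
  set Er := E.filter (fun e => e % P = r) with hEr
  set E' := Er.image (fun e => e / P) with hE'
  have hinj : Set.InjOn (fun e => e / P) (Er : Set ℕ) := by
    intro x hx y hy hxy
    have h1 := (mem_filter.1 (mem_coe.1 hx)).2
    have h2 := (mem_filter.1 (mem_coe.1 hy)).2
    simp only at hxy
    rw [← Nat.div_add_mod x P, ← Nat.div_add_mod y P, h1, h2, hxy]
  have hcard : E'.card = Er.card := Finset.card_image_of_injOn hinj
  have hsub : E' ⊆ Icc (u / P) (u / P + 2 * H) := by
    intro k hk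
    obtain ⟨e, he, rfl⟩ := mem_image.1 hk
    have h1 := mem_Ioc.1 (hE (mem_filter.1 he).1)
    rw [mem_Icc]
    refine ⟨Nat.div_le_div_right h1.1.le, ?_⟩
    have h2 : e / P ≤ (u + H) / P := Nat.div_le_div_right h1.2
    have h3 : (u + H) / P ≤ u / P + H / P + 1 := by
      rw [Nat.div_le_iff_le_mul_add_pred hP0]
      have h4 := Nat.div_add_mod u P
      have h5 := Nat.mod_lt u hP0
      have h6 := Nat.div_add_mod H P
      have h7 := Nat.mod_lt H hP0
      have h8 : P * (u / P + H / P + 1) = P * (u / P) + P * (H / P) + P := by ring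
      omega
    have h4 : H / P ≤ H := Nat.div_le_self _ _
    omega
  have hc' : (2 ^ (K - 1) * K : ℝ) * ((2 * H : ℕ) : ℝ) ^ (1 - 1 / (2 : ℝ) ^ (K - 1)) ≤ E'.card := by
    have h1 : ((2 * H : ℕ) : ℝ) ^ (1 - 1 / (2 : ℝ) ^ (K - 1)) ≤
        2 * (H : ℝ) ^ (1 - 1 / (2 : ℝ) ^ (K - 1)) := by
      push_cast
      rw [Real.mul_rpow (by norm_num) (by linarith)]
      apply mul_le_mul_of_nonneg_right _ (Real.rpow_nonneg (by linarith) _)
      calc (2 : ℝ) ^ (1 - 1 / (2 : ℝ) ^ (K - 1)) ≤ (2 : ℝ) ^ (1 : ℝ) :=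
            Real.rpow_le_rpow_of_exponent_le (by norm_num) (by
              have : 0 ≤ 1 / (2 : ℝ) ^ (K - 1) := by positivity
              linarith)
        _ = 2 := Real.rpow_one 2
    have h2 : (E.card : ℝ) ≤ P * E'.card := by
      rw [hcard]
      exact_mod_cast hrc
    have h3 : (0 : ℝ) < P := by exact_mod_cast hP0
    have h4 : (P : ℝ) * ((2 ^ (K - 1) * K : ℝ) * ((2 * H : ℕ) : ℝ) ^ (1 - 1 / (2 : ℝ) ^ (K - 1))) ≤
        P * E'.card := by
      refine le_trans ?_ h2
      refine le_trans ?_ hc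
      push_cast at h1 ⊢
      have h5 := mul_le_mul_of_nonneg_left h1 (by positivity : (0 : ℝ) ≤ P * (2 ^ (K - 1) * K))
      linarith
    exact le_of_mul_le_mul_left h4 h3
  obtain ⟨B, hB1, hB2, hB3⟩ := cube K (2 * H) hK (by omega) (K - 1) (u / P) E' hsub hc'
  set F := E'.filter (fun e => ∀ i, i ≤ K - 1 → e + B i ∈ E') with hF
  obtain ⟨F', hF'1, hF'2⟩ := Finset.exists_subset_card_eq hB3
  have hmono : ∀ i i', i < i' → i' ≤ K - 1 → B i < B i' := by
    intro i i' hii'
    induction i', hii' using Nat.le_induction with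
    | base => intro hi; exact hB1 i (by omega)
    | succ k hk ih => intro hi; exact (ih (by omega)).trans (hB1 k (by omega))
  have hmax : ∀ i, i ≤ K - 1 → B i ≤ B (K - 1) := by
    intro i hi
    rcases Nat.lt_or_ge i (K - 1) with h | h
    · exact (hmono i _ h le_rfl).le
    · have : i = K - 1 := by omega
      rw [this]
  have hE'mem : ∀ k ∈ E', P * k + r ∈ E := by
    intro k hk
    obtain ⟨e, he, rfl⟩ := mem_image.1 hk
    have h1 := mem_filter.1 he
    have h2 := Nat.div_add_mod e P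
    rw [h1.2] at h2
    rw [h2]
    exact h1.1
  refine ⟨r, fun i => P * (F'.orderEmbOfFin hF'2 i + B (K - 1)) + r,
    fun j => P * (B (K - 1) - B j), ?_, ?_, ?_, ?_, ?_, ?_⟩
  · intro i i' h
    simp only at h
    have h1 : P * (F'.orderEmbOfFin hF'2 i + B (K - 1)) = P * (F'.orderEmbOfFin hF'2 i' + B (K - 1)) := by
      omega
    have h2 := Nat.eq_of_mul_eq_mul_left hP0 h1
    exact (F'.orderEmbOfFin hF'2).injective (by omega)
  · intro j j' h
    simp only at h
    have h2 := Nat.eq_of_mul_eq_mul_left hP0 h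
    have h3 := hmax j (by have := j.2; omega)
    have h4 := hmax j' (by have := j'.2; omega)
    by_contra hne
    have hne' : (j : ℕ) ≠ j' := fun h => hne (Fin.ext h)
    rcases Nat.lt_or_gt_of_ne hne' with h5 | h5
    · have := hmono j j' h5 (by have := j'.2; omega)
      omega
    · have := hmono j' j h5 (by have := j.2; omega)
      omega
  · intro i
    simp only
    rw [Nat.mul_add_mod]
    exact Nat.mod_eq_of_lt (mem_range.1 hr)
  · intro j
    exact dvd_mul_right _ _
  · intro i j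
    have h1 : F'.orderEmbOfFin hF'2 i ∈ F := hF'1 (Finset.orderEmbOfFin_mem _ _ _)
    have h2 := (mem_filter.1 h1).2 j (by have := j.2; omega)
    have h3 := hE'mem _ h2
    have h4 := hmax j (by have := j.2; omega)
    have h5 : P * (F'.orderEmbOfFin hF'2 i + B (K - 1)) + r - P * (B (K - 1) - B j) =
        P * (F'.orderEmbOfFin hF'2 i + B j) + r := by
      have h6 : P * (F'.orderEmbOfFin hF'2 i + B (K - 1)) =
          P * (F'.orderEmbOfFin hF'2 i + B j) + P * (B (K - 1) - B j) := by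
        rw [← Nat.mul_add]
        congr 1
        omega
      omega
    have h6 : P * (B (K - 1) - B j) ≤ P * (F'.orderEmbOfFin hF'2 i + B (K - 1)) :=
      Nat.mul_le_mul_left _ (by omega)
    refine ⟨?_, ?_⟩
    · have h7 : 0 < P * (F'.orderEmbOfFin hF'2 i + B j) + r := by
        have h8 := (mem_Ioc.1 (hE h3)).1
        omega
      simp only
      omega
    · simp only
      rw [h5]
      exact h3
  · intro i
    have h1 : F'.orderEmbOfFin hF'2 i ∈ F := hF'1 (Finset.orderEmbOfFin_mem _ _ _)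
    have h2 := hE'mem _ (mem_filter.1 h1).1
    have h3 := (mem_Ioc.1 (hE h2)).2
    have h4 := hB2 (K - 1) le_rfl
    have h5 : P * B (K - 1) ≤ P * ((K - 1) * (2 * H)) := Nat.mul_le_mul_left _ h4
    have h6 : P * ((K - 1) * (2 * H)) ≤ 2 * P * K * H := by
      calc P * ((K - 1) * (2 * H)) ≤ P * (K * (2 * H)) := by
            apply Nat.mul_le_mul_left
            apply Nat.mul_le_mul_right
            omega
        _ = 2 * P * K * H := by ring
    simp only
    rw [Nat.mul_add]
    omega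

end Pool.Agent.N419.GP
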