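import Mathlib

/-!
# Two plus two classes of shifts: the pattern argument at a given scale
-/

set_option autoImplicit false

namespace Pool.Agent.N419.GP

open Finset

/-- the linear form `f.1 * n + f.2`: primitive, slope at most `A`, constant term at most `N`, values at
least `N / 24` on `[N / 16, N / 2]` (a copy of `Pool.Agent.Y827.GS.Adf`) -/
def Adc (A N : ℕ) (f : ℤ × ℤ) : Prop :=
  f.1 ≠ 0 ∧ |f.1| ≤ A ∧ |f.2| ≤ N ∧ IsCoprime f.1 f.2 ∧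
    ∀ t : ℝ, (N : ℝ) / 16 ≤ t → t ≤ N / 2 → (N : ℝ) / 24 ≤ f.1 * t + f.2

/-- the shifts of the four classes -/
def sh {K : ℕ} (a b : Fin K → ℕ) : Fin 4 → Fin K → ℕ := ![a, b, a, b]

/-- the four classes of linear forms -/
def fam {K : ℕ} (a b : Fin K → ℕ) (α β γ₁ γ₂ : ℤ) (g : Fin 4) (i : Fin K) : ℤ × ℤ :=
  (![α, α, β, β] g, ![γ₁, γ₁, γ₂, γ₂] g + sh a b g i)

theorem fam_inj {K : ℕ} (a b : Fin K → ℕ) (α β γ₁ γ₂ : ℤ) (hαβ : α ≠ β)
    (ha : Function.Injective a) (hb : Function.Injective b) (hab : ∀ i j, b j < a i) :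
    Function.Injective (fun x : Fin 4 × Fin K => fam a b α β γ₁ γ₂ x.1 x.2) := by
  have hab' : ∀ i j, a i ≠ b j := fun i j => (hab i j).ne'
  have hba' : ∀ i j, b j ≠ a i := fun i j => (hab i j).ne
  rintro ⟨g, i⟩ ⟨g', i'⟩ h
  simp only [fam, sh] at h
  fin_cases g <;> fin_cases g' <;> simp at h
  · simp [ha h]
  · exact absurd h (hab' _ _)
  · exact absurd h.1 hαβ
  · exact absurd h.1 hαβ
  · exact absurd h (hba' _ _)
  · simp [hb h]
  · exact absurd h.1 hαβ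
  · exact absurd h.1 hαβ
  · exact absurd h.1.symm hαβ
  · exact absurd h.1.symm hαβ
  · simp [ha h]
  · exact absurd h (hab' _ _)
  · exact absurd h.1.symm hαβ
  · exact absurd h.1.symm hαβ
  · exact absurd h (hba' _ _)
  · simp [hb h]

/-- number of primes `p ≤ M` for which `p + d` is prime -/
def PP (M d : ℕ) : ℕ := ((Icc 1 M).filter (fun p : ℕ => p.Prime ∧ (p + d).Prime)).card

open Classical in
/-- number of primes `q ≤ M` for which there is a prime `p` with `β * p - α * q = c` -/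
noncomputable def LL (M : ℕ) (β α c : ℤ) : ℕ :=
  ((Icc 1 M).filter (fun q : ℕ => q.Prime ∧ ∃ p : ℕ, p.Prime ∧ β * p - α * q = c)).card

open Classical in
theorem core (K A N M P : ℕ) (B : ℝ)
    (hyp : ∀ H : Fin 4 → Fin K → ℤ × ℤ,
      Function.Injective (fun x : Fin 4 × Fin K => H x.1 x.2) → (∀ g i, Adc A N (H g i)) →
      (∀ p : ℕ, p.Prime → p ≤ 4 * K → ∃ r : ℤ, ∀ g i, ¬ (p : ℤ) ∣ (H g i).1 * r + (H g i).2) →
      ∃ (S : Finset (Fin 4)) (c : Fin 4 → Fin K), 1 + 1 ≤ S.card ∧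
        B ≤ (((Icc 1 N).filter (fun n : ℕ => N ≤ 16 * n ∧ 100 * n ≤ 51 * N ∧
          ∀ g ∈ S, ((H g (c g)).1 * n + (H g (c g)).2).toNat.Prime)).card : ℝ))
    (hP : ∀ p : ℕ, p.Prime → p ≤ 4 * K → p ∣ P) (hP' : ∀ p : ℕ, p.Prime → p ≤ A → p ∣ P)
    (t : ℤ) (r : ℕ) (ht : ∀ p : ℕ, p.Prime → p ∣ P → ¬ (p : ℤ) ∣ t ∧ ¬ (p : ℤ) ∣ t + r)
    (a b : Fin K → ℕ) (ha : Function.Injective a) (hb : Function.Injective b)
    (hab : ∀ i j, b j < a i) (har : ∀ i, a i % P = r) (hbP : ∀ j, P ∣ b j)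
    (α β γ₁ γ₂ : ℤ) (hα0 : α ≠ 0) (hβ0 : β ≠ 0) (hαβ : α ≠ β) (hαA : |α| ≤ A) (hβA : |β| ≤ A)
    (hγ₁ : (P : ℤ) ∣ γ₁ - t) (hγ₂ : (P : ℤ) ∣ γ₂ - t)
    (hs₁ : ∀ g i, |γ₁ + sh a b g i| ≤ N) (hs₂ : ∀ g i, |γ₂ + sh a b g i| ≤ N)
    (hlow₁ : ∀ z : ℝ, (N : ℝ) / 16 ≤ z → z ≤ N / 2 → (N : ℝ) / 24 ≤ α * z + γ₁)
    (hlow₂ : ∀ z : ℝ, (N : ℝ) / 16 ≤ z → z ≤ N / 2 → (N : ℝ) / 24 ≤ β * z + γ₂)
    (hM : ∀ n : ℕ, N ≤ 16 * n → 100 * n ≤ 51 * N → ∀ g i, α * n + γ₁ + sh a b g i ≤ M ∧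
      β * n + γ₂ + sh a b g i ≤ M) :
    (∃ i j, B ≤ PP M (a i - b j)) ∨
      ∃ (g g' : Fin 4) (i i' : Fin K),
        B ≤ LL M β α (β * (γ₁ + sh a b g i) - α * (γ₂ + sh a b g' i')) := by
  have hres : ∀ p : ℕ, p.Prime → p ∣ P → ∀ g i, ¬ (p : ℤ) ∣ t + sh a b g i := by
    intro p hp hpP g i
    obtain ⟨h1, h2⟩ := ht p hp hpP
    have hpP' : (p : ℤ) ∣ (P : ℤ) := by exact_mod_cast hpP
    have hA : ∀ i, ¬ (p : ℤ) ∣ t + (a i : ℤ) := by
      intro i h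
      apply h2
      have h3 := Nat.div_add_mod (a i) P
      rw [har i] at h3
      have h4 : t + (r : ℤ) = t + (a i : ℤ) - (P : ℤ) * ((a i / P : ℕ) : ℤ) := by
        rw [← h3]
        push_cast
        have h5 : ((a i / P : ℕ) : ℤ) = (((P * (a i / P) + r) / P : ℕ) : ℤ) := by rw [h3]
        push_cast at h5
        rw [← h5]
        ring
      rw [h4]
      exact dvd_sub h (dvd_mul_of_dvd_left hpP' _)
    have hB : ∀ i, ¬ (p : ℤ) ∣ t + (b i : ℤ) := by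
      intro i h
      apply h1
      have h3 : (p : ℤ) ∣ (b i : ℤ) := hpP'.trans (by exact_mod_cast hbP i)
      exact (dvd_add_left h3).1 h
    fin_cases g <;> simp only [sh]
    · exact hA i
    · exact hB i
    · exact hA i
    · exact hB i
  have hcase : ∀ g : Fin 4, (![α, α, β, β] g = α ∧ ![γ₁, γ₁, γ₂, γ₂] g = γ₁) ∨
      (![α, α, β, β] g = β ∧ ![γ₁, γ₁, γ₂, γ₂] g = γ₂) := by
    intro g
    fin_cases g <;> simp
  -- coprimality
  have hcop : ∀ (δ γ : ℤ), δ ≠ 0 → |δ| ≤ A → (P : ℤ) ∣ γ - t → ∀ g i,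
      IsCoprime δ (γ + sh a b g i) := by
    intro δ γ hδ0 hδA hγ g i
    rw [Int.isCoprime_iff_gcd_eq_one]
    by_contra hne
    obtain ⟨p, hp, hpd⟩ := Nat.exists_prime_and_dvd hne
    have hpα : (p : ℤ) ∣ δ := (Int.natCast_dvd_natCast.2 hpd).trans (Int.gcd_dvd_left _ _)
    have hpc : (p : ℤ) ∣ γ + sh a b g i :=
      (Int.natCast_dvd_natCast.2 hpd).trans (Int.gcd_dvd_right _ _)
    have hple : p ≤ A := by
      have h3 := Int.le_of_dvd (abs_pos.2 hδ0) ((dvd_abs _ _).2 hpα)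
      have h4 := h3.trans hδA
      exact_mod_cast h4
    have hpP := hP' p hp hple
    apply hres p hp hpP g i
    have h5 : t + (sh a b g i : ℤ) = (γ + sh a b g i) - (γ - t) := by ring
    rw [h5]
    have hpP' : (p : ℤ) ∣ (P : ℤ) := by exact_mod_cast hpP
    exact dvd_sub hpc (hpP'.trans hγ)
  have hadc : ∀ g i, Adc A N (fam a b α β γ₁ γ₂ g i) := by
    intro g i
    have h0 : (0 : ℝ) ≤ (sh a b g i : ℝ) := Nat.cast_nonneg _
    unfold fam Adc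
    simp only
    rcases hcase g with ⟨h1, h2⟩ | ⟨h1, h2⟩
    · rw [h1, h2]
      refine ⟨hα0, hαA, hs₁ g i, hcop α γ₁ hα0 hαA hγ₁ g i, ?_⟩
      intro z hz1 hz2
      have := hlow₁ z hz1 hz2
      push_cast
      linarith
    · rw [h1, h2]
      refine ⟨hβ0, hβA, hs₂ g i, hcop β γ₂ hβ0 hβA hγ₂ g i, ?_⟩
      intro z hz1 hz2
      have := hlow₂ z hz1 hz2
      push_cast
      linarith
  have hadm : ∀ p : ℕ, p.Prime → p ≤ 4 * K → ∃ r : ℤ, ∀ g i,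
      ¬ (p : ℤ) ∣ (fam a b α β γ₁ γ₂ g i).1 * r + (fam a b α β γ₁ γ₂ g i).2 := by
    intro p hp hpK
    have hpP := hP p hp hpK
    have hpP' : (p : ℤ) ∣ (P : ℤ) := by exact_mod_cast hpP
    refine ⟨0, fun g i hdiv => ?_⟩
    apply hres p hp hpP g i
    unfold fam at hdiv
    simp only at hdiv
    rw [mul_zero, zero_add] at hdiv
    rcases hcase g with ⟨h1, h2⟩ | ⟨h1, h2⟩
    · rw [h2] at hdiv
      have h5 : t + (sh a b g i : ℤ) = (γ₁ + sh a b g i) - (γ₁ - t) := by ring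
      rw [h5]
      exact dvd_sub hdiv (hpP'.trans hγ₁)
    · rw [h2] at hdiv
      have h5 : t + (sh a b g i : ℤ) = (γ₂ + sh a b g i) - (γ₂ - t) := by ring
      rw [h5]
      exact dvd_sub hdiv (hpP'.trans hγ₂)
  obtain ⟨S, c, hS, hcnt⟩ := hyp (fam a b α β γ₁ γ₂) (fam_inj a b α β γ₁ γ₂ hαβ ha hb hab) hadc hadm
  -- pairs
  have key : ∀ g ∈ S, ∀ g' ∈ S, B ≤ (((Icc 1 N).filter (fun n : ℕ => N ≤ 16 * n ∧
      100 * n ≤ 51 * N ∧
        ((fam a b α β γ₁ γ₂ g (c g)).1 * n + (fam a b α β γ₁ γ₂ g (c g)).2).toNat.Prime ∧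
        ((fam a b α β γ₁ γ₂ g' (c g')).1 * n +
          (fam a b α β γ₁ γ₂ g' (c g')).2).toNat.Prime)).card : ℝ) := by
    intro g hg g' hg'
    refine hcnt.trans ?_
    rw [Nat.cast_le]
    apply card_le_card
    intro n hn
    rw [mem_filter] at hn ⊢
    exact ⟨hn.1, hn.2.1, hn.2.2.1, hn.2.2.2 g hg, hn.2.2.2 g' hg'⟩
  have hcross : ∀ g ∈ S, ∀ g' ∈ S, (![α, α, β, β] g = α ∧ ![γ₁, γ₁, γ₂, γ₂] g = γ₁) →
      (![α, α, β, β] g' = β ∧ ![γ₁, γ₁, γ₂, γ₂] g' = γ₂) →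
      ∃ (g g' : Fin 4) (i i' : Fin K),
        B ≤ LL M β α (β * (γ₁ + sh a b g i) - α * (γ₂ + sh a b g' i')) := by
    intro g hg g' hg' h1 h2
    refine ⟨g, g', c g, c g', (key g hg g' hg').trans ?_⟩
    rw [Nat.cast_le]
    unfold LL
    apply card_le_card_of_injOn (fun n : ℕ => (β * n + (γ₂ + sh a b g' (c g'))).toNat)
    · intro n hn
      obtain ⟨hn1, hn2, hn3, hn4, hn5⟩ := mem_filter.1 (mem_coe.1 hn)
      have hM' := (hM n hn2 hn3 g' (c g')).2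
      unfold fam at hn4 hn5
      simp only at hn4 hn5
      rw [h1.1, h1.2] at hn4
      rw [h2.1, h2.2] at hn5
      have h4 := hn4.pos
      have h5 := hn5.pos
      rw [coe_filter, Set.mem_ofPred_eq, mem_Icc]
      beta_reduce
      refine ⟨⟨h5, by omega⟩, hn5, (α * (n : ℤ) + (γ₁ + sh a b g (c g))).toNat, hn4, ?_⟩
      rw [Int.toNat_of_nonneg (by omega), Int.toNat_of_nonneg (by omega)]
      ring
    · intro n hn n' hn' h
      obtain ⟨hn1, hn2, hn3, hn4, hn5⟩ := mem_filter.1 (mem_coe.1 hn)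
      obtain ⟨hn1', hn2', hn3', hn4', hn5'⟩ := mem_filter.1 (mem_coe.1 hn')
      unfold fam at hn5 hn5'
      simp only at hn5 hn5'
      rw [h2.1, h2.2] at hn5 hn5'
      have h6 := hn5.pos
      have h6' := hn5'.pos
      simp only at h
      have h3 : β * (n : ℤ) = β * (n' : ℤ) := by omega
      have h4 := mul_left_cancel₀ hβ0 h3
      exact_mod_cast h4
  have hsame : ∀ (δ γ : ℤ) (i j : Fin K), δ ≠ 0 →
      (∀ n : ℕ, N ≤ 16 * n → 100 * n ≤ 51 * N → δ * n + γ + b j ≤ M) →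
      B ≤ (((Icc 1 N).filter (fun n : ℕ => N ≤ 16 * n ∧ 100 * n ≤ 51 * N ∧
        (δ * (n : ℤ) + (γ + a i)).toNat.Prime ∧ (δ * (n : ℤ) + (γ + b j)).toNat.Prime)).card : ℝ) →
      ∃ i j, B ≤ PP M (a i - b j) := by
    intro δ γ i j hδ0 hMd hB
    refine ⟨i, j, hB.trans ?_⟩
    rw [Nat.cast_le]
    unfold PP
    apply card_le_card_of_injOn (fun n : ℕ => (δ * n + (γ + b j)).toNat)
    · intro n hn
      obtain ⟨hn1, hn2, hn3, hn4, hn5⟩ := mem_filter.1 (mem_coe.1 hn)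
      have hM' := hMd n hn2 hn3
      have h1 := hab i j
      have h2 := hn5.pos
      rw [coe_filter, Set.mem_ofPred_eq, mem_Icc]
      beta_reduce
      refine ⟨⟨h2, by omega⟩, hn5, ?_⟩
      have h3 : (δ * (n : ℤ) + (γ + a i)).toNat =
          (δ * (n : ℤ) + (γ + b j)).toNat + (a i - b j) := by omega
      rw [h3] at hn4
      exact hn4
    · intro n hn n' hn' h
      obtain ⟨hn1, hn2, hn3, hn4, hn5⟩ := mem_filter.1 (mem_coe.1 hn)
      obtain ⟨hn1', hn2', hn3', hn4', hn5'⟩ := mem_filter.1 (mem_coe.1 hn')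
      have h2 := hn5.pos
      have h2' := hn5'.pos
      simp only at h
      have h3 : δ * (n : ℤ) = δ * (n' : ℤ) := by omega
      have h4 := mul_left_cancel₀ hδ0 h3
      exact_mod_cast h4
  have hsame1 : (0 : Fin 4) ∈ S → (1 : Fin 4) ∈ S → ∃ i j, B ≤ PP M (a i - b j) := by
    intro hg hg'
    apply hsame α γ₁ (c 0) (c 1) hα0 (fun n hn1 hn2 => by
      have := (hM n hn1 hn2 1 (c 1)).1
      simpa [sh] using this)
    have := key 0 hg 1 hg'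
    simpa [fam, sh] using this
  have hsame2 : (2 : Fin 4) ∈ S → (3 : Fin 4) ∈ S → ∃ i j, B ≤ PP M (a i - b j) := by
    intro hg hg'
    apply hsame β γ₂ (c 2) (c 3) hβ0 (fun n hn1 hn2 => by
      have := (hM n hn1 hn2 3 (c 3)).2
      simpa [sh] using this)
    have := key 2 hg 3 hg'
    simpa [fam, sh] using this
  obtain ⟨g, hg, g', hg', hne⟩ := Finset.one_lt_card.1 (show 1 < S.card by omega)
  have h4 : ∀ g : Fin 4, g = 0 ∨ g = 1 ∨ g = 2 ∨ g = 3 := by decide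
  have u0 : (![α, α, β, β] 0 = α ∧ ![γ₁, γ₁, γ₂, γ₂] 0 = γ₁) := by simp
  have u1 : (![α, α, β, β] 1 = α ∧ ![γ₁, γ₁, γ₂, γ₂] 1 = γ₁) := by simp
  have u2 : (![α, α, β, β] 2 = β ∧ ![γ₁, γ₁, γ₂, γ₂] 2 = γ₂) := by simp
  have u3 : (![α, α, β, β] 3 = β ∧ ![γ₁, γ₁, γ₂, γ₂] 3 = γ₂) := by simp
  rcases h4 g with rfl | rfl | rfl | rfl <;> rcases h4 g' with rfl | rfl | rfl | rfl
  · exact absurd rfl hne
  · exact Or.inl (hsame1 hg hg')
  · exact Or.inr (hcross _ hg _ hg' u0 u2)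
  · exact Or.inr (hcross _ hg _ hg' u0 u3)
  · exact Or.inl (hsame1 hg' hg)
  · exact absurd rfl hne
  · exact Or.inr (hcross _ hg _ hg' u1 u2)
  · exact Or.inr (hcross _ hg _ hg' u1 u3)
  · exact Or.inr (hcross _ hg' _ hg u0 u2)
  · exact Or.inr (hcross _ hg' _ hg u1 u2)
  · exact absurd rfl hne
  · exact Or.inl (hsame2 hg hg')
  · exact Or.inr (hcross _ hg' _ hg u0 u3)
  · exact Or.inr (hcross _ hg' _ hg u1 u3)
  · exact Or.inl (hsame2 hg' hg)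
  · exact absurd rfl hne

end Pool.Agent.N419.GP
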