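import Mathlib
import Pool.Agent.N419.GP.Core

/-!
# Counting in a window
-/

set_option autoImplicit false

namespace Pool.Agent.N419.GP

open Finset

/-- an integer `0 ≤ t < P` such that `t` and `t + r` are coprime to `P` -/
theorem exists_t (P r : ℕ) (hP : 1 ≤ P) (hr : Even r) :
    ∃ t : ℕ, t < P ∧ ∀ p : ℕ, p.Prime → p ∣ P → ¬ (p : ℤ) ∣ (t : ℤ) ∧ ¬ (p : ℤ) ∣ (t : ℤ) + r := by
  have main : ∃ t : ℤ, ∀ p : ℕ, p.Prime → p ∣ P → ¬ (p : ℤ) ∣ t ∧ ¬ (p : ℤ) ∣ t + r := by
    refine ⟨2 - ((r : ℤ) + 1) ^ P.totient, fun p hp hpP => ?_⟩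
    have := Fact.mk hp
    have hpos : P.totient ≠ 0 := (Nat.totient_pos.2 hP).ne'
    rw [← ZMod.intCast_zmod_eq_zero_iff_dvd, ← ZMod.intCast_zmod_eq_zero_iff_dvd]
    push_cast
    by_cases h : ((r : ZMod p) + 1) = 0
    · have h2 : p ≠ 2 := by
        rintro rfl
        have h3 : ((r + 1 : ℕ) : ZMod 2) = 0 := by push_cast; exact h
        rw [ZMod.natCast_eq_zero_iff] at h3
        obtain ⟨k, hk⟩ := hr
        omega
      rw [h, zero_pow hpos, sub_zero]
      constructor
      · intro h3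
        have h4 : ((2 : ℕ) : ZMod p) = 0 := by push_cast; exact h3
        rw [ZMod.natCast_eq_zero_iff] at h4
        exact h2 ((Nat.prime_dvd_prime_iff_eq hp Nat.prime_two).1 h4)
      · intro h3
        have h4 : (1 : ZMod p) = 0 := by linear_combination h3 - h
        exact one_ne_zero h4
    · have h1 : ((r : ZMod p) + 1) ^ P.totient = 1 := by
        obtain ⟨k, hk⟩ := Nat.totient_dvd_of_dvd hpP
        rw [Nat.totient_prime hp] at hk
        rw [hk, pow_mul, ZMod.pow_card_sub_one_eq_one h, one_pow]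
      rw [h1]
      constructor
      · intro h3
        have h4 : (1 : ZMod p) = 0 := by linear_combination h3
        exact one_ne_zero h4
      · intro h3
        exact h (by linear_combination h3)
  obtain ⟨t, ht⟩ := main
  have hP0 : (0 : ℤ) < P := by exact_mod_cast hP
  refine ⟨(t % P).toNat, ?_, fun p hp hpP => ?_⟩
  · have := Int.emod_lt_of_pos t hP0
    have := Int.emod_nonneg t hP0.ne'
    omega
  · rw [Int.toNat_of_nonneg (Int.emod_nonneg t hP0.ne')]
    have hpP' : (p : ℤ) ∣ (P : ℤ) := by exact_mod_cast hpP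
    have h1 : (p : ℤ) ∣ t - t % P := hpP'.trans (Int.dvd_self_sub_emod)
    obtain ⟨h2, h3⟩ := ht p hp hpP
    constructor
    · intro h4
      apply h2
      have h5 : t = (t - t % P) + t % P := by ring
      rw [h5]
      exact dvd_add h1 h4
    · intro h4
      apply h3
      have h5 : t + r = (t - t % P) + (t % P + r) := by ring
      rw [h5]
      exact dvd_add h1 h4

/-- counting the shifts in one residue class -/
theorem count {ι : Type*} (X P : ℕ) (g w lo hi : ℤ) (O : Finset ι) (φ : ι → ℕ → ℤ)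
    (G : ℤ → Prop) [DecidablePred G] (hP : 1 ≤ P) (hPX : P ≤ X)
    (hinj : ∀ o ∈ O, Function.Injective (φ o)) (hR : ∀ o ∈ O, ∀ s : ℕ, s < X → lo ≤ φ o s ∧ φ o s ≤ hi)
    (h : ∀ s : ℕ, s < X → (P : ℤ) ∣ g + s - w → ∃ o ∈ O, G (φ o s)) :
    X ≤ 2 * P * (O.card * ((Icc lo hi).filter G).card) := by
  classical
  set Gd := (Icc lo hi).filter G with hGd
  set s1 : ℕ := ((w - g) % P).toNat with hs1
  have hP0 : (0 : ℤ) < P := by exact_mod_cast hP
  have hs1' : (s1 : ℤ) = (w - g) % P := Int.toNat_of_nonneg (Int.emod_nonneg _ hP0.ne')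
  have hs1lt : s1 < P := by
    have := Int.emod_lt_of_pos (w - g) hP0
    omega
  have h1 : ((range (X / P)).image (fun k => s1 + P * k)) ⊆
      O.biUnion (fun o => (range X).filter (fun s => G (φ o s))) := by
    intro s hs
    obtain ⟨k, hk, rfl⟩ := mem_image.1 hs
    have hk' := mem_range.1 hk
    have hlt : s1 + P * k < X := by
      have h2 : P * (k + 1) ≤ P * (X / P) := Nat.mul_le_mul_left _ hk'
      have h3 : P * (X / P) ≤ X := Nat.mul_div_le X P
      have h4 : P * (k + 1) = P * k + P := by ring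
      omega
    have hdvd : (P : ℤ) ∣ g + (s1 + P * k : ℕ) - w := by
      push_cast
      rw [hs1']
      have h2 := Int.emod_add_mul_ediv (w - g) P
      have h3 : g + ((w - g) % P + P * k) - w = (P : ℤ) * (k - (w - g) / P) := by
        linear_combination h2
      rw [h3]
      exact dvd_mul_right _ _
    obtain ⟨o, ho, hG⟩ := h _ hlt hdvd
    exact mem_biUnion.2 ⟨o, ho, mem_filter.2 ⟨mem_range.2 hlt, hG⟩⟩
  have h2 := card_le_card h1
  rw [card_image_of_injective _ (fun x y (hxy : s1 + P * x = s1 + P * y) =>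
    Nat.eq_of_mul_eq_mul_left hP (by omega)), card_range] at h2
  have h3 : (O.biUnion (fun o => (range X).filter (fun s => G (φ o s)))).card ≤
      O.card * Gd.card := by
    apply card_biUnion_le_card_mul
    intro o ho
    apply card_le_card_of_injOn (φ o)
    · intro s hs
      rw [coe_filter, Set.mem_ofPred_eq, mem_range] at hs
      rw [hGd, coe_filter, Set.mem_ofPred_eq, mem_Icc]
      exact ⟨hR o ho s hs.1, hs.2⟩
    · exact (hinj o ho).injOn
  have h4 : X < P * (X / P + 1) := Nat.lt_mul_div_succ X (show 0 < P by omega)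
  have h5 : 1 ≤ X / P := (Nat.one_le_div_iff (by omega)).2 hPX
  have h6 : P * (X / P + 1) ≤ P * (2 * (X / P)) := Nat.mul_le_mul_left _ (by omega)
  have h7 : P * (2 * (X / P)) ≤ P * (2 * (O.card * Gd.card)) :=
    Nat.mul_le_mul_left _ (by omega)
  calc X ≤ P * (2 * (O.card * Gd.card)) := by omega
    _ = 2 * P * (O.card * Gd.card) := by ring

open Classical in
/-- the pattern argument for all the translates in a window -/
theorem window (K A y N P X Dm : ℕ) (B : ℝ)
    (hyp : ∀ H : Fin 4 → Fin K → ℤ × ℤ,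
      Function.Injective (fun x : Fin 4 × Fin K => H x.1 x.2) → (∀ g i, Adc A y (H g i)) →
      (∀ p : ℕ, p.Prime → p ≤ 4 * K → ∃ r : ℤ, ∀ g i, ¬ (p : ℤ) ∣ (H g i).1 * r + (H g i).2) →
      ∃ (S : Finset (Fin 4)) (c : Fin 4 → Fin K), 1 + 1 ≤ S.card ∧
        B ≤ (((Icc 1 y).filter (fun n : ℕ => y ≤ 16 * n ∧ 100 * n ≤ 51 * y ∧
          ∀ g ∈ S, ((H g (c g)).1 * n + (H g (c g)).2).toNat.Prime)).card : ℝ))
    (hP : ∀ p : ℕ, p.Prime → p ≤ 4 * K → p ∣ P) (hP' : ∀ p : ℕ, p.Prime → p ≤ A → p ∣ P)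
    (hP1 : 1 ≤ P) (hPX : P ≤ X)
    (t r : ℕ) (ht : ∀ p : ℕ, p.Prime → p ∣ P → ¬ (p : ℤ) ∣ (t : ℤ) ∧ ¬ (p : ℤ) ∣ (t : ℤ) + r)
    (a b : Fin K → ℕ) (ha : Function.Injective a) (hb : Function.Injective b)
    (hab : ∀ i j, b j < a i) (har : ∀ i, a i % P = r) (hbP : ∀ j, P ∣ b j)
    (haD : ∀ i, a i ≤ Dm)
    (α β g₂ lo hi : ℤ) (hα0 : α ≠ 0) (hβ0 : β ≠ 0) (hαβ : α ≠ β) (hαA : |α| ≤ A) (hβA : |β| ≤ A)
    (hs : t + Dm ≤ y) (hs' : |g₂| + X + Dm ≤ y)
    (hlow₁ : ∀ z : ℝ, (y : ℝ) / 16 ≤ z → z ≤ y / 2 → (y : ℝ) / 24 ≤ α * z + t)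
    (hlow₂ : ∀ z : ℝ, (y : ℝ) / 16 ≤ z → z ≤ y / 2 → (y : ℝ) / 24 ≤ β * z + g₂)
    (hM : ∀ n : ℕ, y ≤ 16 * n → 100 * n ≤ 51 * y → α * n + t + Dm ≤ N ∧
      β * n + g₂ + X + Dm ≤ N)
    (hR : ∀ h h' s : ℕ, h ≤ Dm → h' ≤ Dm → s < X →
      lo ≤ β * (t + h) - α * (g₂ + s + h') ∧ β * (t + h) - α * (g₂ + s + h') ≤ hi) :
    (∃ i j, B ≤ PP N (a i - b j)) ∨
      X ≤ 2 * P * ((16 * K ^ 2) * ((Icc lo hi).filter (fun c : ℤ => B ≤ LL N β α c)).card) := by
  by_cases hcase : ∃ i j, B ≤ PP N (a i - b j)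
  · exact Or.inl hcase
  right
  have hbD : ∀ i, b i ≤ Dm := fun i => (hab i i).le.trans (haD i)
  have hshD : ∀ g i, sh a b g i ≤ Dm := by
    intro g i
    fin_cases g <;> simp [sh, haD, hbD]
  set O : Finset ((Fin 4 × Fin 4) × (Fin K × Fin K)) := univ with hO
  have hOc : O.card = 16 * K ^ 2 := by
    rw [hO, card_univ, Fintype.card_prod, Fintype.card_prod, Fintype.card_prod, Fintype.card_fin,
      Fintype.card_fin]
    ring
  have hmain := count X P g₂ t lo hi O
    (fun x s => β * (t + sh a b x.1.1 x.2.1) - α * (g₂ + s + sh a b x.1.2 x.2.2))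
    (fun c : ℤ => B ≤ LL N β α c) hP1 hPX (by
      intro o _ s s' h
      simp only at h
      have h1 : α * (s : ℤ) = α * (s' : ℤ) := by linarith
      have h2 := mul_left_cancel₀ hα0 h1
      exact_mod_cast h2) (by
      intro o _ s hs
      exact hR _ _ _ (hshD _ _) (hshD _ _) hs) (by
      intro s hsX hdvd
      have hsX' : (s : ℤ) < X := by exact_mod_cast hsX
      have hs0 : (0 : ℤ) ≤ s := Nat.cast_nonneg _
      have h1 := core K A y N P B hyp hP hP' t r ht a b ha hb hab har hbP α β t (g₂ + s) hα0 hβ0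
        hαβ hαA hβA (by rw [sub_self]; exact dvd_zero _) hdvd (by
          intro g i
          have h3 := hshD g i
          rw [abs_le]
          constructor <;> omega) (by
          intro g i
          have h2 : ((sh a b g i : ℕ) : ℤ) ≤ Dm := by exact_mod_cast hshD _ _
          have h3 : (0 : ℤ) ≤ ((sh a b g i : ℕ) : ℤ) := Nat.cast_nonneg _
          have h4 := abs_le.1 (le_refl |g₂|)
          rw [abs_le]
          constructor <;> linarith) (by
          intro z hz1 hz2
          have h2 := hlow₁ z hz1 hz2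
          push_cast
          exact h2) (by
          intro z hz1 hz2
          have h2 := hlow₂ z hz1 hz2
          have h3 : (0 : ℝ) ≤ (s : ℝ) := Nat.cast_nonneg _
          push_cast
          linarith) (by
          intro n hn1 hn2 g i
          have h2 := hM n hn1 hn2
          have h4 : ((sh a b g i : ℕ) : ℤ) ≤ Dm := by exact_mod_cast hshD _ _
          exact ⟨by linarith [h2.1], by linarith [h2.2]⟩)
      rcases h1 with h1 | ⟨g, g', i, i', h1⟩
      · exact absurd h1 hcase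
      · exact ⟨((g, g'), (i, i')), mem_univ _, h1⟩)
  rw [hOc] at hmain
  exact hmain

end Pool.Agent.N419.GP
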