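import Mathlib
import Pool.Agent.N419.GP.Comb
import Pool.Agent.N419.GP.Win

/-!
# The dichotomy at a given scale, from the coloured theorem
-/

set_option autoImplicit false

namespace Pool.Agent.N419.GP

open Finset Filter Topology

/-- the coloured theorem with four classes -/
def LamHyp : Prop := ∃ K : ℕ, 1 ≤ K ∧ ∀ (A : ℕ)
    (η : ℝ), 0 < η → ∀ᶠ N : ℕ in atTop, ∀ H : Fin 4 → Fin K → ℤ × ℤ,
    Function.Injective (fun x : Fin 4 × Fin K => H x.1 x.2) → (∀ g i, Adc A N (H g i)) →
    (∀ p : ℕ, p.Prime → p ≤ 4 * K → ∃ r : ℤ, ∀ g i, ¬ (p : ℤ) ∣ (H g i).1 * r + (H g i).2) →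
    ∃ (S : Finset (Fin 4)) (c : Fin 4 → Fin K), 1 + 1 ≤ S.card ∧
      (N : ℝ) ^ (1 - η) ≤ (((Icc 1 N).filter (fun n : ℕ => N ≤ 16 * n ∧ 100 * n ≤ 51 * N ∧
        ∀ g ∈ S, ((H g (c g)).1 * n + (H g (c g)).2).toNat.Prime)).card : ℝ)

/-- number of primes `q ≤ N` for which `m - b * q` is prime -/
def SS (N b m : ℕ) : ℕ := ((Icc 1 N).filter (fun q : ℕ => q.Prime ∧ (m - b * q).Prime)).card

/-- changing the scale -/
theorem scale (q : ℕ) (hq : 1 ≤ q) (η : ℝ) (hη : 0 < η) : ∀ᶠ N : ℕ in atTop, ∀ y : ℕ,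
    N ≤ q * y → (N : ℝ) ^ (1 - η) ≤ (y : ℝ) ^ (1 - min η 1 / 2) := by
  set e : ℝ := min η 1 / 2 with he
  have he0 : 0 < e := by
    have : 0 < min η 1 := lt_min hη one_pos
    linarith
  have he1 : e ≤ 1 / 2 := by
    have : min η 1 ≤ 1 := min_le_right _ _
    linarith
  have heη : e ≤ η / 2 := by
    have : min η 1 ≤ η := min_le_left _ _
    linarith
  have h3 : ∀ᶠ N : ℕ in atTop, (q : ℝ) ≤ (N : ℝ) ^ (η / 2) :=
    ((tendsto_rpow_atTop (by positivity)).comp tendsto_natCast_atTop_atTop).eventually_ge_atTop _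
  filter_upwards [h3, eventually_ge_atTop 1] with N hN hN1 y hy
  have hNr : (1 : ℝ) ≤ N := by exact_mod_cast hN1
  have hqr : (1 : ℝ) ≤ q := by exact_mod_cast hq
  have hyr : (N : ℝ) ≤ q * y := by exact_mod_cast hy
  have hy0 : (0 : ℝ) ≤ y := Nat.cast_nonneg _
  have h4 : (N : ℝ) ^ (1 - e) ≤ q * (y : ℝ) ^ (1 - e) := by
    calc (N : ℝ) ^ (1 - e) ≤ ((q : ℝ) * y) ^ (1 - e) :=
          Real.rpow_le_rpow (by linarith) hyr (by linarith)
      _ = (q : ℝ) ^ (1 - e) * (y : ℝ) ^ (1 - e) := Real.mul_rpow (by linarith) hy0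
      _ ≤ q * (y : ℝ) ^ (1 - e) := by
          apply mul_le_mul_of_nonneg_right _ (Real.rpow_nonneg hy0 _)
          calc (q : ℝ) ^ (1 - e) ≤ (q : ℝ) ^ (1 : ℝ) :=
                Real.rpow_le_rpow_of_exponent_le hqr (by linarith)
            _ = q := Real.rpow_one _
  have h5 : q * (N : ℝ) ^ (1 - η) ≤ (N : ℝ) ^ (1 - e) := by
    calc q * (N : ℝ) ^ (1 - η) ≤ (N : ℝ) ^ (η / 2) * (N : ℝ) ^ (1 - η) :=
          mul_le_mul_of_nonneg_right hN (Real.rpow_nonneg (by linarith) _)
      _ = (N : ℝ) ^ (η / 2 + (1 - η)) := (Real.rpow_add (by linarith) _ _).symm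
      _ ≤ (N : ℝ) ^ (1 - e) := Real.rpow_le_rpow_of_exponent_le hNr (by linarith)
  have h6 := h5.trans h4
  exact le_of_mul_le_mul_left h6 (by linarith)

open Classical in
theorem main (hl : LamHyp) : ∃ δ : ℝ, 0 < δ ∧ ∀ A : ℕ, ∃ C : ℕ, 1 ≤ C ∧ ∀ η : ℝ, 0 < η →
    ∀ᶠ N : ℕ in atTop, ∀ X : ℕ, C ≤ X → C * X ≤ N →
    (∀ u H : ℕ, 1 ≤ H → u + H ≤ X →
      (((Ioc u (u + H)).filter (fun d : ℕ => Even d ∧ (PP N d : ℝ) < (N : ℝ) ^ (1 - η))).card : ℝ) ≤
        C * (H : ℝ) ^ (1 - δ)) ∨
    ((∀ b : ℕ, 1 ≤ b → b ≤ A → X ≤ C * ((Icc (N - C * X) (N + C * X)).filter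
        (fun m : ℕ => (N : ℝ) ^ (1 - η) ≤ SS N b m)).card) ∧
      ∀ a b : ℕ, 1 ≤ a → a ≤ A → 1 ≤ b → b ≤ A → a ≠ b → ∀ γ : ℤ, 100 * A * |γ| ≤ N →
        X ≤ C * ((Icc (γ - C * X) (γ + C * X)).filter
          (fun c : ℤ => (N : ℝ) ^ (1 - η) ≤ LL N a b c)).card) := by
  obtain ⟨K, hK, hlam⟩ := hl
  refine ⟨1 / (2 : ℝ) ^ (K - 1), by positivity, ?_⟩
  intro A
  set P : ℕ := (4 * K + A + 2).factorial with hPdef
  have hP1 : 1 ≤ P := Nat.factorial_pos _
  have hPdvd : ∀ p : ℕ, 1 ≤ p → p ≤ 4 * K + A + 2 → p ∣ P := fun p h1 h2 =>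
    Nat.dvd_factorial h1 h2
  obtain ⟨C0, hC0⟩ := comb K P hK hP1
  set D : ℕ := 1 + 2 * P * K with hD
  set A' : ℕ := A + 1 with hA'
  set W : ℕ := A' * (3 + 2 * D) with hW
  set C : ℕ := C0 + P + 2 * P * (16 * K ^ 2) + 1000 * A' * W with hC
  have hW1 : 1 ≤ W := by
    rw [hW]
    exact Nat.one_le_iff_ne_zero.2 (Nat.mul_ne_zero (by omega) (by omega))
  have hCge1 : 1000 ≤ C := by
    have : 1000 * 1 ≤ 1000 * A' * W := by
      rw [mul_assoc]
      apply Nat.mul_le_mul_left
      exact Nat.one_le_iff_ne_zero.2 (Nat.mul_ne_zero (by omega) (by omega))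
    omega
  refine ⟨C, by omega, ?_⟩
  intro η hη
  set e : ℝ := min η 1 / 2 with he
  have he0 : 0 < e := by
    have : 0 < min η 1 := lt_min hη one_pos
    linarith
  -- scales
  obtain ⟨y0, hy0⟩ := eventually_atTop.1 (hlam A' e he0)
  filter_upwards [scale (2 * A') (by omega) η hη, eventually_ge_atTop (1000 * A'),
    eventually_ge_atTop (A' * (y0 + 2))] with N hN4 hN5 hN6 X hCX hXN
  by_cases hcase : ∀ u H : ℕ, 1 ≤ H → u + H ≤ X →
      (((Ioc u (u + H)).filter (fun d : ℕ => Even d ∧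
        (PP N d : ℝ) < (N : ℝ) ^ (1 - η))).card : ℝ) ≤ C * (H : ℝ) ^ (1 - 1 / (2 : ℝ) ^ (K - 1))
  · exact Or.inl hcase
  right
  push Not at hcase
  obtain ⟨u, H, hH, huX, hbig⟩ := hcase
  have hHr : (1 : ℝ) ≤ H := by exact_mod_cast hH
  obtain ⟨r, a, b, ha, hb, har, hbP, hab, haD⟩ := hC0 u H _ hH (filter_subset _ _) (by
    refine le_trans ?_ hbig.le
    apply mul_le_mul_of_nonneg_right _ (Real.rpow_nonneg (by linarith) _)
    have : C0 ≤ C := by omega
    exact_mod_cast this)
  have hX1 : H ≤ X := by omega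
  have haD' : ∀ i, a i ≤ D * X := by
    intro i
    have h1 := haD i
    have h2 : 2 * P * K * H ≤ 2 * P * K * X := Nat.mul_le_mul_left _ hX1
    have h3 : D * X = X + 2 * P * K * X := by rw [hD]; ring
    omega
  have hP2 : 2 ∣ P := hPdvd 2 (by omega) (by omega)
  have hr : Even r := by
    have i0 : Fin K := ⟨0, hK⟩
    have h1 := (mem_filter.1 (hab i0 i0).2).2.1
    have h2 := (hab i0 i0).1
    have h3 := hbP i0
    have h4 := har i0
    have h5 : Even (b i0) := even_iff_two_dvd.2 (hP2.trans h3)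
    have h6 : Even (a i0) := by
      have h7 : a i0 = (a i0 - b i0) + b i0 := by omega
      rw [h7]
      exact h1.add h5
    rw [← h4]
    exact (Even.mod_even_iff (even_iff_two_dvd.2 hP2)).2 h6
  obtain ⟨t, htP, ht⟩ := exists_t P r hP1 hr
  have hbad : ∀ i j, ¬ (N : ℝ) ^ (1 - η) ≤ PP N (a i - b j) := by
    intro i j
    exact not_le.2 (mem_filter.1 (hab i j).2).2.2
  -- sizes
  have hPX : P ≤ X := by omega
  have hX0 : 1 ≤ X := by omega
  set S : ℕ := A' * (3 * X + 2 * (D * X)) with hS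
  have hSW : S = W * X := by rw [hS, hW]; ring
  have hWX : 1000 * A' * S ≤ N := by
    calc 1000 * A' * S = (1000 * A' * W) * X := by rw [hSW]; ring
      _ ≤ C * X := Nat.mul_le_mul_right _ (by omega)
      _ ≤ N := hXN
  have hWC : S ≤ C * X := by
    rw [hSW]
    apply Nat.mul_le_mul_right
    have : W ≤ 1000 * A' * W := Nat.le_mul_of_pos_left _ (by omega)
    omega
  have hSX : 3 * X + 2 * (D * X) ≤ S := by
    rw [hS]
    exact Nat.le_mul_of_pos_left _ (by omega)
  have hA'0 : 0 < A' := by omega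
  have hPp : ∀ p : ℕ, p.Prime → p ≤ 4 * K → p ∣ P := fun p hp h => hPdvd p hp.one_le (by omega)
  have hPp' : ∀ p : ℕ, p.Prime → p ≤ A' → p ∣ P := fun p hp h => hPdvd p hp.one_le (by omega)
  have hCC : 2 * P * (16 * K ^ 2) ≤ C := by omega
  have hmulle : ∀ k z : ℕ, k ≤ A' → z ≤ 3 * X + 2 * (D * X) → k * z ≤ S := by
    intro k z h1 h2
    rw [hS]
    exact Nat.mul_le_mul h1 h2
  refine ⟨?_, ?_⟩
  · -- the sums
    intro β hβ1 hβA
    set v : ℕ := N / β with hv
    have hv1 : β * v ≤ N := Nat.mul_div_le N β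
    have hv2 : N < β * v + β := by
      have := Nat.lt_mul_div_succ N (show 0 < β by omega)
      rw [Nat.mul_add, mul_one] at this
      exact this
    have hvN : v ≤ N := Nat.div_le_self _ _
    have hvS : 1000 * S ≤ v := by
      rw [hv, Nat.le_div_iff_mul_le (by omega)]
      calc 1000 * S * β ≤ 1000 * S * A' := Nat.mul_le_mul_left _ (by omega)
        _ = 1000 * A' * S := by ring
        _ ≤ N := hWX
    have hvy : y0 + 2 ≤ v := by
      rw [hv, Nat.le_div_iff_mul_le (by omega)]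
      calc (y0 + 2) * β ≤ (y0 + 2) * A' := Nat.mul_le_mul_left _ (by omega)
        _ = A' * (y0 + 2) := by ring
        _ ≤ N := hN6
    have h1 := window K A' (5 * v / 4) N P X (D * X) ((N : ℝ) ^ (1 - η)) (by
        intro F h2 h3 h4
        obtain ⟨T, c, h5, h6⟩ := hy0 (5 * v / 4) (by omega) F h2 h3 h4
        refine ⟨T, c, h5, (hN4 (5 * v / 4) ?_).trans h6⟩
        have h7 : 2 * A' * (5 * v / 4) = A' * (5 * v / 4) + A' * (5 * v / 4) := by ring
        have h8 : β * v ≤ A' * (5 * v / 4) := Nat.mul_le_mul (by omega) (by omega)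
        have h9 : β * 1 ≤ A' * (5 * v / 4) := Nat.mul_le_mul (by omega) (by omega)
        omega)
      hPp hPp' hP1 hPX t r ht a b ha hb (fun i j => (hab i j).1) har hbP haD' (β : ℤ) (-1) (v : ℤ)
      (-((N + S : ℕ) : ℤ)) (-((N - S : ℕ) : ℤ))
      (by omega) (by norm_num) (by omega) (by rw [Nat.abs_cast]; omega)
      (by rw [abs_neg, abs_one]; omega) (by omega) (by
        rw [Nat.abs_cast]
        omega) (by
        intro z hz1 hz2
        have h2 : (1 : ℝ) ≤ β := by exact_mod_cast hβ1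
        have h3 : (0 : ℝ) ≤ ((5 * v / 4 : ℕ) : ℝ) := Nat.cast_nonneg _
        have h4 : (1 : ℝ) * z ≤ β * z := mul_le_mul_of_nonneg_right h2 (by linarith)
        have h5 : (0 : ℝ) ≤ t := Nat.cast_nonneg _
        rw [Int.cast_natCast]
        linarith) (by
        intro z hz1 hz2
        have h2 : ((5 * v / 4 : ℕ) : ℝ) ≤ 5 * v / 4 := by
          have : ((5 * v / 4 : ℕ) : ℝ) ≤ ((5 * v : ℕ) : ℝ) / ((4 : ℕ) : ℝ) := Nat.cast_div_le
          push_cast at this
          exact this
        have h3 : (0 : ℝ) ≤ v := Nat.cast_nonneg _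
        push_cast
        linarith) (by
        intro n hn1 hn2
        have h2 : 400 * n ≤ 255 * v := by omega
        have h3 : 400 * (β * n) ≤ 255 * (β * v) := by
          calc 400 * (β * n) = β * (400 * n) := by ring
            _ ≤ β * (255 * v) := Nat.mul_le_mul_left _ h2
            _ = 255 * (β * v) := by ring
        have h4 : ((β : ℤ) * n + t + (D * X : ℕ)) = ((β * n + t + D * X : ℕ) : ℤ) := by
          push_cast
          ring
        rw [h4]
        refine ⟨?_, by omega⟩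
        rw [Int.ofNat_le]
        omega) (by
        intro h h' s hh hh' hs
        have e1 : (-1 : ℤ) * (t + h) - β * (v + s + h') =
            -((t + h + (β * v + β * (s + h')) : ℕ) : ℤ) := by
          push_cast
          ring
        rw [e1]
        have e2 : β * (s + h') ≤ β * (X + D * X) := Nat.mul_le_mul_left _ (by omega)
        have e3 : (β + 1) * (X + D * X) ≤ S := hmulle _ _ (by omega) (by omega)
        have e4 : (β + 1) * (X + D * X) = β * (X + D * X) + (X + D * X) := by ring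
        have e5 : β * 1 ≤ S := hmulle _ _ (by omega) (by omega)
        constructor
        · rw [neg_le_neg_iff, Int.ofNat_le]
          omega
        · rw [neg_le_neg_iff, Int.ofNat_le]
          omega)
    rcases h1 with ⟨i, j, h1⟩ | h1
    · exact absurd h1 (hbad i j)
    · refine h1.trans ?_
      rw [← mul_assoc]
      apply Nat.mul_le_mul hCC
      apply card_le_card_of_injOn (fun c : ℤ => (-c).toNat)
      · intro c hc
        rw [coe_filter, Set.mem_ofPred_eq, mem_Icc] at hc
        obtain ⟨⟨hc1, hc2⟩, hc3⟩ := hc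
        rw [coe_filter, Set.mem_ofPred_eq, mem_Icc]
        beta_reduce
        refine ⟨⟨by omega, by omega⟩, hc3.trans ?_⟩
        rw [Nat.cast_le]
        unfold LL SS
        apply card_le_card
        intro q hq
        rw [mem_filter] at hq ⊢
        obtain ⟨hq1, hq2, p, hp, hpq⟩ := hq
        refine ⟨hq1, hq2, ?_⟩
        have h2 : (-c).toNat - β * q = p := by
          have h3 : -c = (p : ℤ) + ((β * q : ℕ) : ℤ) := by
            push_cast
            linarith
          rw [h3]
          omega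
        rw [h2]
        exact hp
      · intro c hc c' hc' h
        rw [coe_filter, Set.mem_ofPred_eq, mem_Icc] at hc hc'
        simp only at h
        omega
  · intro α β hα1 hαA hβ1 hβA hαβ γ hγ
    -- `α p - β q = c`: the form of `p` has slope `β`, the form of `q` has slope `α`
    set y : ℕ := N / A' with hy
    have hy1 : A' * y ≤ N := Nat.mul_div_le N A'
    have hy2 : N < A' * y + A' := by
      have := Nat.lt_mul_div_succ N hA'0
      rw [Nat.mul_add, mul_one] at this
      exact this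
    have hγ' : 200 / 3 * (A' : ℝ) * |(γ : ℝ)| ≤ N := by
      have h2 : (A' : ℝ) ≤ 3 / 2 * A := by
        rw [hA']
        push_cast
        have : (2 : ℝ) ≤ A := by exact_mod_cast (show 2 ≤ A by omega)
        linarith
      have h3 : (100 : ℝ) * A * |(γ : ℝ)| ≤ N := by
        have : (((100 * A * |γ| : ℤ)) : ℝ) ≤ ((N : ℤ) : ℝ) := by exact_mod_cast hγ
        push_cast at this
        exact this
      have h4 := mul_le_mul_of_nonneg_right h2 (abs_nonneg (γ : ℝ))
      linarith
    have hA'r : (0 : ℝ) < A' := by exact_mod_cast hA'0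
    have hyr2 : (N : ℝ) ≤ A' * y + A' := by exact_mod_cast hy2.le
    have hyA : 999 * A' ≤ A' * y := by omega
    have hy999 : 999 ≤ y := Nat.le_of_mul_le_mul_left (by rw [mul_comm A' 999]; exact hyA) hA'0
    have hyy0 : y0 ≤ y := by
      have h2 : A' * (y0 + 2) ≤ A' * (y + 1) := by
        have : A' * (y + 1) = A' * y + A' := by ring
        omega
      have := Nat.le_of_mul_le_mul_left h2 hA'0
      omega
    have hNy : (N : ℝ) ≤ A' * (1.01 * y) := by
      have : (999 : ℝ) ≤ y := by exact_mod_cast hy999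
      nlinarith
    have hγy : |(γ : ℝ)| ≤ y / 60 := by
      have h2 : (A' : ℝ) * (200 / 3 * |(γ : ℝ)|) ≤ A' * (1.01 * y) := by
        refine le_trans (le_of_eq ?_) (hγ'.trans hNy)
        ring
      have h3 := le_of_mul_le_mul_left h2 hA'r
      have : (0 : ℝ) ≤ y := Nat.cast_nonneg _
      linarith
    have hγyz : 60 * |γ| ≤ y := by
      have : ((60 * |γ| : ℤ) : ℝ) ≤ ((y : ℤ) : ℝ) := by
        push_cast
        linarith
      exact_mod_cast this
    have hSy : 900 * S ≤ y := by
      have h2 : A' * (1000 * S) ≤ A' * y + A' := by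
        have : A' * (1000 * S) = 1000 * A' * S := by ring
        omega
      have h3 : A' * (1000 * S) ≤ A' * (y + 1) := by rw [Nat.mul_add, mul_one]; exact h2
      have h4 := Nat.le_of_mul_le_mul_left h3 hA'0
      omega
    have hyN : y ≤ N := Nat.div_le_self _ _
    have hγabs := abs_le.1 (le_refl |γ|)
    set g : ℤ := -(γ / β) with hg
    have hβ0 : (0 : ℤ) < β := by omega
    have hg1 := Int.emod_add_mul_ediv γ β
    have hg2 := Int.emod_nonneg γ hβ0.ne'
    have hg3 := Int.emod_lt_of_pos γ hβ0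
    have hgabs : |g| ≤ |γ| := by
      rw [hg, abs_neg]
      have h2 := Int.natAbs_ediv_le_natAbs γ β
      rw [Int.abs_eq_natAbs, Int.abs_eq_natAbs]
      exact_mod_cast h2
    have hgy : |(g : ℝ)| ≤ y / 60 := by
      have : (|g| : ℤ) ≤ |γ| := hgabs
      have h2 : ((|g| : ℤ) : ℝ) ≤ ((|γ| : ℤ) : ℝ) := by exact_mod_cast this
      push_cast at h2
      linarith
    have hgabs' := abs_le.1 (le_refl |g|)
    have hny : ∀ k n : ℕ, k ≤ A → 100 * n ≤ 51 * y → 100 * (k * n) ≤ 51 * N := by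
      intro k n hk hn
      calc 100 * (k * n) = k * (100 * n) := by ring
        _ ≤ A' * (51 * y) := Nat.mul_le_mul (by omega) hn
        _ = 51 * (A' * y) := by ring
        _ ≤ 51 * N := Nat.mul_le_mul_left _ hy1
    have h1 := window K A' y N P X (D * X) ((N : ℝ) ^ (1 - η)) (by
        intro F h2 h3 h4
        obtain ⟨T, c, h5, h6⟩ := hy0 y hyy0 F h2 h3 h4
        refine ⟨T, c, h5, (hN4 y ?_).trans h6⟩
        have : 2 * A' * y = A' * y + A' * y := by ring
        omega)
      hPp hPp' hP1 hPX t r ht a b ha hb (fun i j => (hab i j).1) har hbP haD' (β : ℤ) (α : ℤ) g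
      (γ - S) (γ + S)
      (by omega) (by omega) (by omega) (by rw [Nat.abs_cast]; omega)
      (by rw [Nat.abs_cast]; omega) (by omega) (by
        omega) (by
        intro z hz1 hz2
        have h2 : (1 : ℝ) ≤ β := by exact_mod_cast hβ1
        have h3 : (0 : ℝ) ≤ y := Nat.cast_nonneg _
        have h4 : (1 : ℝ) * z ≤ β * z := mul_le_mul_of_nonneg_right h2 (by linarith)
        have h5 : (0 : ℝ) ≤ t := Nat.cast_nonneg _
        rw [Int.cast_natCast]
        linarith) (by
        intro z hz1 hz2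
        have h2 := (abs_le.1 hgy).1
        have h3 : (0 : ℝ) ≤ y := Nat.cast_nonneg _
        have h4 : (1 : ℝ) ≤ α := by exact_mod_cast hα1
        have h5 : (1 : ℝ) * z ≤ α * z := mul_le_mul_of_nonneg_right h4 (by linarith)
        rw [Int.cast_natCast]
        linarith) (by
        intro n hn1 hn2
        have h2 := hny β n hβA hn2
        have h3 := hny α n hαA hn2
        have h2' : 100 * ((β : ℤ) * n) ≤ 51 * N := by exact_mod_cast h2
        have h3' : 100 * ((α : ℤ) * n) ≤ 51 * N := by exact_mod_cast h3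
        constructor <;> omega) (by
        intro h h' s hh hh' hs
        have e1 : (α : ℤ) * (t + h) - β * (g + s + h') =
            γ - γ % β + ((α * (t + h) : ℕ) : ℤ) - ((β * (s + h') : ℕ) : ℤ) := by
          rw [hg]
          push_cast
          linear_combination hg1
        rw [e1]
        have e2 : β * (s + h') ≤ β * (X + D * X) := Nat.mul_le_mul_left _ (by omega)
        have e3 : (β + 1) * (X + D * X) ≤ S := hmulle _ _ (by omega) (by omega)
        have e4 : (β + 1) * (X + D * X) = β * (X + D * X) + (X + D * X) := by ring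
        have e5 : β * (X + D * X + 1) ≤ S := hmulle _ _ (by omega) (by omega)
        have e6 : β * (X + D * X + 1) = β * (X + D * X) + β := by ring
        have e7 : α * (t + h) ≤ S := hmulle _ _ (by omega) (by omega)
        constructor <;> omega)
    rcases h1 with ⟨i, j, h1⟩ | h1
    · exact absurd h1 (hbad i j)
    · refine h1.trans ?_
      rw [← mul_assoc]
      apply Nat.mul_le_mul hCC
      apply card_le_card
      intro c hc
      rw [mem_filter, mem_Icc] at hc ⊢
      have h2 : ((S : ℕ) : ℤ) ≤ C * X := by exact_mod_cast hWC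
      exact ⟨⟨by linarith [hc.1.1], by linarith [hc.1.2]⟩, hc.2⟩

end Pool.Agent.N419.GP
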