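import Mathlib
import Pool.Agent.N419.GP.Main

/-!
# The qualitative dichotomy
-/

set_option autoImplicit false

namespace Pool.Agent.N419.GP

open Finset Filter Topology

/-- a finite set of primes is counted by a bounded number -/
theorem fin_lt (Q : ℕ → Prop) [DecidablePred Q] (h : {p : ℕ | Q p}.Finite) :
    ∀ᶠ N : ℕ in atTop, (((Icc 1 N).filter Q).card : ℝ) < (N : ℝ) ^ (1 - 1 / 2 : ℝ) := by
  have h3 : ∀ᶠ N : ℕ in atTop, (h.toFinset.card : ℝ) < (N : ℝ) ^ (1 - 1 / 2 : ℝ) :=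
    ((tendsto_rpow_atTop (by norm_num)).comp tendsto_natCast_atTop_atTop).eventually_gt_atTop _
  filter_upwards [h3] with N hN
  refine lt_of_le_of_lt ?_ hN
  rw [Nat.cast_le]
  apply card_le_card
  intro p hp
  rw [Set.Finite.mem_toFinset]
  exact (mem_filter.1 hp).2

open Classical in
theorem qual (δ : ℝ) (h : ∀ A : ℕ, ∃ C : ℕ, 1 ≤ C ∧ ∀ η : ℝ, 0 < η →
    ∀ᶠ N : ℕ in atTop, ∀ X : ℕ, C ≤ X → C * X ≤ N →
    (∀ u H : ℕ, 1 ≤ H → u + H ≤ X →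
      (((Ioc u (u + H)).filter (fun d : ℕ => Even d ∧ (PP N d : ℝ) < (N : ℝ) ^ (1 - η))).card : ℝ) ≤
        C * (H : ℝ) ^ (1 - δ)) ∨
    ((∀ b : ℕ, 1 ≤ b → b ≤ A → X ≤ C * ((Icc (N - C * X) (N + C * X)).filter
        (fun m : ℕ => (N : ℝ) ^ (1 - η) ≤ SS N b m)).card) ∧
      ∀ a b : ℕ, 1 ≤ a → a ≤ A → 1 ≤ b → b ≤ A → a ≠ b → ∀ γ : ℤ, 100 * A * |γ| ≤ N →
        X ≤ C * ((Icc (γ - C * X) (γ + C * X)).filter
          (fun c : ℤ => (N : ℝ) ^ (1 - η) ≤ LL N a b c)).card)) :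
    (∃ C : ℝ, ∀ u H : ℕ, 1 ≤ H →
      (((Ioc u (u + H)).filter (fun d : ℕ => Even d ∧
        {p : ℕ | p.Prime ∧ (p + d).Prime}.Finite)).card : ℝ) ≤ C * (H : ℝ) ^ (1 - δ)) ∨
    ((∀ b : ℕ, 1 ≤ b → ∃ C : ℕ, ∀ᶠ n : ℕ in atTop, ∃ p q : ℕ, p.Prime ∧ q.Prime ∧
        p + b * q ≤ n + C ∧ n ≤ p + b * q + C) ∧
      ∀ a b : ℕ, 1 ≤ a → 1 ≤ b → a ≠ b → ∃ C : ℕ, ∀ γ : ℤ, ∃ c : ℤ, |c - γ| ≤ C ∧
        {q : ℕ | q.Prime ∧ ∃ p : ℕ, p.Prime ∧ (a : ℤ) * p - b * q = c}.Infinite) := by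
  by_cases hcase : ∃ C : ℝ, ∀ u H : ℕ, 1 ≤ H →
      (((Ioc u (u + H)).filter (fun d : ℕ => Even d ∧
        {p : ℕ | p.Prime ∧ (p + d).Prime}.Finite)).card : ℝ) ≤ C * (H : ℝ) ^ (1 - δ)
  · exact Or.inl hcase
  right
  push Not at hcase
  have key : ∀ A : ℕ, ∃ C X : ℕ, 1 ≤ X ∧ ∀ᶠ N : ℕ in atTop,
      ((∀ b : ℕ, 1 ≤ b → b ≤ A → 1 ≤ ((Icc (N - C * X) (N + C * X)).filter
        (fun m : ℕ => (N : ℝ) ^ (1 - 1 / 2 : ℝ) ≤ SS N b m)).card) ∧
      ∀ a b : ℕ, 1 ≤ a → a ≤ A → 1 ≤ b → b ≤ A → a ≠ b → ∀ γ : ℤ, 100 * A * |γ| ≤ N →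
        1 ≤ ((Icc (γ - C * X) (γ + C * X)).filter
          (fun c : ℤ => (N : ℝ) ^ (1 - 1 / 2 : ℝ) ≤ LL N a b c)).card) := by
    intro A
    obtain ⟨C, hC1, hC⟩ := h A
    obtain ⟨u, H, hH, hbig⟩ := hcase C
    refine ⟨C, C + (u + H), by omega, ?_⟩
    have ev : ∀ᶠ N : ℕ in atTop, ∀ d ∈ (Ioc u (u + H)).filter (fun d : ℕ => Even d ∧
        {p : ℕ | p.Prime ∧ (p + d).Prime}.Finite), (PP N d : ℝ) < (N : ℝ) ^ (1 - 1 / 2 : ℝ) := by
      rw [Filter.eventually_all_finset]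
      intro d hd
      have := fin_lt (fun p => p.Prime ∧ (p + d).Prime) (mem_filter.1 hd).2.2
      exact this
    filter_upwards [hC (1 / 2) (by norm_num), ev, eventually_ge_atTop (C * (C + (u + H)))] with
      N hN1 hN2 hN3
    rcases hN1 (C + (u + H)) (by omega) hN3 with h1 | h1
    · exfalso
      have h2 := h1 u H hH (by omega)
      have h3 : ((Ioc u (u + H)).filter (fun d : ℕ => Even d ∧
          {p : ℕ | p.Prime ∧ (p + d).Prime}.Finite)).card ≤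
          ((Ioc u (u + H)).filter (fun d : ℕ => Even d ∧
            (PP N d : ℝ) < (N : ℝ) ^ (1 - 1 / 2 : ℝ))).card := by
        apply card_le_card
        intro d hd
        have h4 := hN2 d hd
        rw [mem_filter] at hd ⊢
        exact ⟨hd.1, hd.2.1, h4⟩
      have h3' : (((Ioc u (u + H)).filter (fun d : ℕ => Even d ∧
          {p : ℕ | p.Prime ∧ (p + d).Prime}.Finite)).card : ℝ) ≤
          (((Ioc u (u + H)).filter (fun d : ℕ => Even d ∧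
            (PP N d : ℝ) < (N : ℝ) ^ (1 - 1 / 2 : ℝ))).card : ℝ) := by exact_mod_cast h3
      linarith
    · refine ⟨fun b hb1 hbA => ?_, fun a b h2 h3 h4 h5 h6 γ h7 => ?_⟩
      · have h5 := h1.1 b hb1 hbA
        by_contra hcon
        have h6 : ((Icc (N - C * (C + (u + H))) (N + C * (C + (u + H)))).filter
          (fun m : ℕ => (N : ℝ) ^ (1 - 1 / 2 : ℝ) ≤ SS N b m)).card = 0 := by omega
        rw [h6, mul_zero] at h5
        omega
      · have h5 := h1.2 a b h2 h3 h4 h5 h6 γ h7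
        by_contra hcon
        have h6 : ((Icc (γ - C * ((C + (u + H) : ℕ) : ℤ)) (γ + C * ((C + (u + H) : ℕ) : ℤ))).filter
          (fun c : ℤ => (N : ℝ) ^ (1 - 1 / 2 : ℝ) ≤ LL N a b c)).card = 0 := by omega
        rw [h6, mul_zero] at h5
        omega
  refine ⟨?_, ?_⟩
  · intro b hb
    obtain ⟨C, X, hX, hev⟩ := key b
    refine ⟨C * X, ?_⟩
    filter_upwards [hev, eventually_ge_atTop 1] with N hN hN1
    obtain ⟨m, hm⟩ := card_pos.1 (show 0 < _ from hN.1 b hb le_rfl)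
    rw [mem_filter, mem_Icc] at hm
    have h1 : (0 : ℝ) < SS N b m := by
      refine lt_of_lt_of_le (Real.rpow_pos_of_pos ?_ _) hm.2
      exact_mod_cast hN1
    have h2 : 0 < SS N b m := by exact_mod_cast h1
    obtain ⟨q, hq⟩ := card_pos.1 h2
    rw [mem_filter] at hq
    have h3 := hq.2.2.pos
    refine ⟨m - b * q, q, hq.2.2, hq.2.1, ?_, ?_⟩ <;> omega
  · intro a b ha hb hab
    obtain ⟨C, X, hX, hev⟩ := key (a + b)
    refine ⟨C * X, fun γ => ?_⟩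
    by_contra hcon
    push Not at hcon
    have ev : ∀ᶠ N : ℕ in atTop, ∀ c ∈ Icc (γ - C * X) (γ + C * X),
        (LL N a b c : ℝ) < (N : ℝ) ^ (1 - 1 / 2 : ℝ) := by
      rw [Filter.eventually_all_finset]
      intro c hc
      rw [mem_Icc] at hc
      have h1 := hcon c (by
        rw [abs_le]
        push_cast
        constructor <;> linarith [hc.1, hc.2])
      have := fin_lt (fun q => q.Prime ∧ ∃ p : ℕ, p.Prime ∧ (a : ℤ) * p - b * q = c) h1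
      exact this
    obtain ⟨N, hN1, hN2, hN3⟩ := (hev.and (ev.and
      (eventually_ge_atTop (100 * (a + b) * γ.natAbs)))).exists
    have h1 := hN1.2 a b ha (by omega) hb (by omega) hab γ (by
      rw [Int.abs_eq_natAbs]
      exact_mod_cast hN3)
    obtain ⟨c, hc⟩ := card_pos.1 (show 0 < _ from h1)
    rw [mem_filter] at hc
    have h2 := hN2 c hc.1
    linarith [hc.2]

end Pool.Agent.N419.GP
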