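import Mathlib
import Pool.Agent.Y877.GqA
import Pool.Agent.N419.GP.Qual

/-!
# The coloured theorem with four classes
-/

set_option autoImplicit false

namespace Pool.Agent.N419.GP

theorem lamHyp : LamHyp := by
  obtain ⟨K, hK, h⟩ := Pool.Agent.Y877.GQ.lamW 4 1 (by norm_num) (by norm_num)
  exact ⟨K, hK, fun A η hη => h A η hη⟩

end Pool.Agent.N419.GP
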